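import Pool.Agent.Y128.CV.Slope
import Pool.Agent.Y574.CY.Eig
import Pool.Agent.Y907.CY.REF

/-!
# All Tate classes on products of Jacobians of cyclic coverings over finitely generated fields

Let `X_c`, `c` in a finite set, be curves `y ^ n = ∏ (x - a_t) ^ (m_t)` over a field `F` which is
finitely generated over its prime field and contains the roots of unity of order `n = n_c`, of any
degrees `n_c ≥ 3` prime to the characteristic, prime or not, with any number `r = r_c` of branch points
except four, and any exponents `m_t`, nonzero modulo `n`, with sum zero (one of the branch points may
be the point at infinity). Let `V_c` be the rational Tate module of the primitive part of the
Jacobian of `X_c` (on which the automorphism `σ` of the curve acts with primitive roots of unity of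
order `n` as eigenvalues). Suppose for the curves with `r ≥ 5`:

* `HasSmallEndomorphismRings`: the endomorphism algebra of the primitive part over the algebraic
  closure is generated by `σ` (the theorems of Faltings and Zarhin translate this to the Tate
  module);
* `HasReflections`: there is one discrete valuation of `F`, with residue characteristic prime
  to `2 n`, at which all other curves have good reduction and exactly two branch points of `X_c` meet,
  and `m_a + m_b` times the multiplicity is prime to `n` (half the multiplicity if they are
  conjugate and `m_a = m_b`). Then inertia maps a vanishing cycle `v` to `± σ ^ i v`, `i` prime to `n`.

Let `q` be the residue characteristic of one closed point of a model of `F` at which all curves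
have good reduction (the characteristic of `F`, if this is not zero) and `f` the order of `q` modulo
the degrees.

Theorem (`TateClassesAreFermatAt`): ALL Tate classes, in all degrees, on all products of powers of
these Jacobians are linear combinations of products of Tate classes of degree two, which are
classes of divisors (Faltings, Zarhin), and of determinants on eigenspaces of `σ`, where the
residues of all eigenspaces used in one product satisfy the condition `IsTateCharacter` of Shioda and
Katsura for a Tate class on the Fermat variety of degree `level C` in characteristic `q`.

The determinant `⋀ ^ (r - 2)` of the eigenspace for `j` is the part with the character `j m` of the
cohomology of the Fermat variety of degree `n` and dimension `r - 2` (the symmetric power of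
the line is a projective space; the coverings of the factors give the covering of the
projective space branched over `r` hyperplanes in general position, a quotient of the Fermat
variety, which is defined over the prime field), and a product of Fermat motives is the Fermat motive
for the composed character. So the Tate conjecture for the products of powers of the `X_c`
follows from the Tate conjecture for Fermat varieties over finite fields. It is known if `-1` is a
power of `q` modulo `level C` (Tate, Shioda and Katsura). So in characteristic `q` the Tate
conjecture holds for all products of powers of these curves with `r ≥ 5` for all `n` which divide some
`q ^ ν + 1`, without further hypotheses; all products of an even number of determinants are then Tate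
classes (`IsTateCharacter` always holds), most of them not generated by divisors. For factors with
`r = 3` (then the Jacobian is a factor of a Fermat Jacobian) the condition `three` is that no eigenspace
is supersingular; this excludes those `n` for `r = 3`.

Idea of the proof: the inertia elements act as complex reflections on the eigenspaces, with different
eigenvalues on different ones. Together with one Frobenius element they give nilpotent operators of
rank one in the annihilator Lie algebra of the Tate classes, so this Lie algebra contains
the special linear Lie algebra of each eigenspace of dimension at least three, independently except
for duality and isomorphisms. The invariants are products of pairings and determinants, and the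
valuations of the conjugates of the determinants of one Frobenius element compute the average
Hodge numbers.

The parts `t_EIG` and `t_REF` are by helper574 and helper907.
-/

namespace Pool.Agent.Results.MP_7b53ad_ag.CyclicCoverings

open Pool.Agent.Y128.CV

/-- All Tate classes on products of powers of Jacobians of cyclic coverings over finitely generated
fields (`k` is the field of the `ℓ`-adic numbers, `Γ` the Galois group, `z` any primitive root of unity of
order `level C`). -/
theorem result {k Γ ι : Type} [Field k] [CharZero k] [Group Γ] [Fintype ι] [DecidableEq ι]
    {V : ι → Type} [∀ c, AddCommGroup (V c)] [∀ c, Module k (V c)]
    [∀ c, FiniteDimensional k (V c)] (C : ι → Covering) (ρ : ∀ c, Representation k Γ (V c))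
    (χ : Γ →* k) (ω : ∀ c, V c →ₗ[k] V c →ₗ[k] k) (σ : ∀ c, Module.End k (V c)) (q f : ℕ)
    (hf : 0 < f) (h : CyclicCoveringsAt q f C ρ χ ω σ) (z : AlgebraicClosure k)
    (hz : IsPrimitiveRoot z (level C)) : TateClassesAreFermatAt q f C ρ χ σ z :=
  main_at Pool.Agent.Y574.CY.t_EIG (Pool.Agent.Y907.CY.t_REF Pool.Agent.Y574.CY.t_EIG) hf h hz

end Pool.Agent.Results.MP_7b53ad_ag.CyclicCoverings
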