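import Mathlib
import Pool.Agent.Y131.Pack
import Pool.Agent.Y131.SL2

/-!
# Tate classes on all powers of abelian varieties with Frobenius elements with isolated slopes, over
finitely generated fields of any characteristic

Let `A` be an abelian variety over a finitely generated field `k` of any characteristic and `ℓ` a
prime number different from the characteristic; `V = V_ℓ(A)` is the rational Tate module with the
action `ρ` of the Galois group `Γ`, `χ` the cyclotomic character and `ω` the Weil pairing of a
polarization; `K` is the algebraic closure of `ℚ_ℓ` and `X = K ⊗ V`. The representation is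
semisimple (Tate, Zarhin, Mori, Faltings), and `X` is the sum of strongly irreducible subspaces
`E i`, i.e. minimal nonzero subspaces stable under a subgroup of finite index (for a simple `A` with
commutative endomorphism algebra `E` they correspond to the embeddings of `E` in `K`).

Let `F` be a Frobenius element at a closed point of good reduction, with residue field of `q` elements
and characteristic `p`. A `p`-adic valuation on the algebraic numbers, normalized by `a q = 1`, extends
to an additive function `a` on the multiplicative group of `K` with rational values; the slopes on `E i`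
are the values of `a` at the eigenvalues. More generally `a` may be any additive function.

Hypothesis: each `E i` is a line that is not self-dual (a factor of CM type), or for some Frobenius
element `F` and some `a` the slopes on `E i` are divided into two nonempty sets `S`, `T` such that the
differences `β - α` with `α ∈ S`, `β ∈ T` occur only once among the differences of two slopes on
`E i` (or twice, if `E i` is symplectic, because the slopes are symmetric), `α` or `β` is a simple slope,
and there is no arithmetic progression of length three with such a difference among the slopes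
on one `E j` (with an exception in the symplectic case).

Examples. 1. On each `E j` all slopes but one are equal (for some `a`, for each `i`, with a simple slope
that is different from the others on `E i`), for instance for `μ`-ordinary reductions of abelian
varieties with multiplication by a CM field and signatures `(1, n - 1)`, `(n, 0)`, `(0, n)`.
2. Reductions of K3 type: the slopes are `0`, `1 / 2`, `1`, and `0`, `1` are simple (this case is due to
Zarhin, for simple `A`); and products of varieties of the types 1 and 2.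
-/

namespace Pool.Agent.Results.MP_7b53ad_ag.IsolatedSlopes

open Module TensorProduct Pool.Agent.Y131

section

variable {K X Γ : Type} [Field K] [AddCommGroup X] [Module K X] [Group Γ]

/-- The vectors of `U` which are sums of eigenvectors of `F` for eigenvalues `α` with `a α = q`. -/
def slopePart (R : Representation K Γ X) (F : Γ) (a : Additive Kˣ →+ ℚ) (U : Submodule K X)
    (q : ℚ) : Submodule K X :=
  U ⊓ ⨆ (α : Kˣ) (_ : a (Additive.ofMul α) = q), Module.End.eigenspace (R F) (α : K)

/-- `q` is a slope of `F` on `U`. -/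
def IsSlopeOn (R : Representation K Γ X) (F : Γ) (a : Additive Kˣ →+ ℚ) (U : Submodule K X)
    (q : ℚ) : Prop :=
  slopePart R F a U q ≠ ⊥

/-- `q` is a slope of `F` on `U` of multiplicity one. -/
def IsSimpleSlopeOn (R : Representation K Γ X) (F : Γ) (a : Additive Kˣ →+ ℚ) (U : Submodule K X)
    (q : ℚ) : Prop :=
  finrank K (slopePart R F a U q) = 1

/-- The form `ω` does not vanish on `U`. -/
def NotIsotropic (ω : X →ₗ[K] X →ₗ[K] K) (U : Submodule K X) : Prop :=
  ∃ u ∈ U, ∃ v ∈ U, ω u v ≠ 0

/-- The slopes of `F` on `E i` are divided into two nonempty sets (those in `S` and the others)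
such that, for `α` in `S` and `β` not in `S`, one of the two is simple, no other pair of slopes on
`E i` has the difference `β - α`, and there are no slopes `p`, `q`, `r` on one `E j` with
`q - p = r - q = β - α`. -/
def HasIsolatedSlopes (R : Representation K Γ X) {I : Type} (E : I → Submodule K X) (F : Γ)
    (a : Additive Kˣ →+ ℚ) (i : I) : Prop :=
  ∃ S : Set ℚ, (∃ α ∈ S, IsSlopeOn R F a (E i) α) ∧ (∃ β ∉ S, IsSlopeOn R F a (E i) β) ∧
    ∀ α ∈ S, ∀ β ∉ S, IsSlopeOn R F a (E i) α → IsSlopeOn R F a (E i) β →
      (IsSimpleSlopeOn R F a (E i) α ∨ IsSimpleSlopeOn R F a (E i) β) ∧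
      (∀ α' β', IsSlopeOn R F a (E i) α' → IsSlopeOn R F a (E i) β' →
        β' - α' = β - α → α' = α) ∧
      ∀ j p q r, IsSlopeOn R F a (E j) p → IsSlopeOn R F a (E j) q →
        IsSlopeOn R F a (E j) r → q - p = β - α → r - q = β - α → False

/-- The same in the presence of a pairing on `E i`; `c` is the value of `a` at the multiplier, so that
the slopes `α` and `c - α` are dual. The set `S` is stable under the duality, the difference `β - α`
occurs for `(α, β)` and its dual `(c - β, c - α)` only, and an arithmetic progression `p`, `q`, `r` of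
slopes on `E j` with this difference is self-dual, with simple `p`, and `E j` is not isotropic. -/
def HasIsolatedSlopePairs (R : Representation K Γ X) (ω : X →ₗ[K] X →ₗ[K] K) {I : Type}
    (E : I → Submodule K X) (F : Γ) (a : Additive Kˣ →+ ℚ) (c : ℚ) (i : I) : Prop :=
  ∃ S : Set ℚ, (∃ α ∈ S, IsSlopeOn R F a (E i) α) ∧ (∃ β ∉ S, IsSlopeOn R F a (E i) β) ∧
    (∀ α, IsSlopeOn R F a (E i) α → (α ∈ S ↔ c - α ∈ S)) ∧
    ∀ α ∈ S, ∀ β ∉ S, IsSlopeOn R F a (E i) α → IsSlopeOn R F a (E i) β →
      (IsSimpleSlopeOn R F a (E i) α ∨ IsSimpleSlopeOn R F a (E i) β) ∧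
      (∀ α' β', IsSlopeOn R F a (E i) α' → IsSlopeOn R F a (E i) β' →
        β' - α' = β - α → α' = α ∨ α' + β = c) ∧
      ∀ j p q r, IsSlopeOn R F a (E j) p → IsSlopeOn R F a (E j) q →
        IsSlopeOn R F a (E j) r → q - p = β - α → r - q = β - α →
        NotIsotropic ω (E j) ∧ IsSimpleSlopeOn R F a (E j) p ∧ p + r = c

/-- Each `E i` is a line which is not self-dual, or there is a diagonalizable element `F` of the
group, with an additive function `a`, that has isolated slopes or, if `E i` is not isotropic,
isolated pairs of slopes on `E i`. -/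
def HasIsolatedFrobenii (R : Representation K Γ X) (χ : Γ →* K) (ω : X →ₗ[K] X →ₗ[K] K) {I : Type}
    (E : I → Submodule K X) : Prop :=
  ∀ i, (finrank K (E i) = 1 ∧ ¬AreDual R χ (E i) (E i)) ∨
    ∃ F : Γ, (∃ b : Basis (Fin (finrank K X)) K X, ∀ k, ∃ z : K, R F (b k) = z • b k) ∧
      ∃ (a : Additive Kˣ →+ ℚ) (c : ℚ), (∀ x : Kˣ, (x : K) = χ F → a (Additive.ofMul x) = c) ∧
        (HasIsolatedSlopes R E F a i ∨
          (NotIsotropic ω (E i) ∧ HasIsolatedSlopePairs R ω E F a c i))

end

open Pool.Agent.H204R3.SP Pool.Agent.H204R3.GP Pool.Agent.W522.U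

theorem result (ℓ : ℕ) [Fact ℓ.Prime] {V Γ : Type} [AddCommGroup V] [Module ℚ_[ℓ] V]
    [FiniteDimensional ℚ_[ℓ] V] [Group Γ] (ρ : Representation ℚ_[ℓ] Γ V) (χ : Γ →* ℚ_[ℓ])
    (ω : V →ₗ[ℚ_[ℓ]] V →ₗ[ℚ_[ℓ]] ℚ_[ℓ]) (halt : ∀ v, ω v v = 0)
    (hnondeg : ∀ u, (∀ v, ω v u = 0) → u = 0)
    (hω : ∀ s u v, ω (ρ s u) (ρ s v) = χ s * ω u v)
    (hsemisimple : PotentiallySemisimple ρ) {I : Type}
    (E : I → Submodule (AlgebraicClosure ℚ_[ℓ]) (AlgebraicClosure ℚ_[ℓ] ⊗[ℚ_[ℓ]] V))
    (hE : ∀ i, StronglyIrreducible (extend (AlgebraicClosure ℚ_[ℓ]) ρ) (E i)) (hsum : ⨆ i, E i = ⊤)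
    (hfrob : HasIsolatedFrobenii (extend (AlgebraicClosure ℚ_[ℓ]) ρ)
      (extendChar (AlgebraicClosure ℚ_[ℓ]) χ)
      (LinearMap.BilinForm.baseChange (AlgebraicClosure ℚ_[ℓ]) ω) E)
    (htwists : NoProperTwists (extend (AlgebraicClosure ℚ_[ℓ]) ρ)
      (extendChar (AlgebraicClosure ℚ_[ℓ]) χ)) :
    GeneratedByWeilClasses (AlgebraicClosure ℚ_[ℓ]) ρ χ ω ∧
    (NoWeilFamilies (extend (AlgebraicClosure ℚ_[ℓ]) ρ) (extendChar (AlgebraicClosure ℚ_[ℓ]) χ) →
      GeneratedInDegreeTwo ρ χ) := by
  have hl1 : ∀ u, (∀ v, bcb (AlgebraicClosure ℚ_[ℓ]) ω u v = 0) → u = 0 := fun u hu =>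
    bcb_nondeg_left ω hnondeg (left_nondeg ω halt hnondeg) u hu
  have hinv := bcb_inv (Ω := AlgebraicClosure ℚ_[ℓ]) ρ χ ω hω
  have hpr : HasProj (bcr ρ (AlgebraicClosure ℚ_[ℓ])) := hasProj_bcr ρ _ hsemisimple
  refine pack (AlgebraicClosure ℚ_[ℓ]) ρ χ ω halt hnondeg hω fun m φ hφ =>
    Pool.Agent.Y131.SL.slope_det (E := E) (bcb _ ω) (Pool.Agent.TH118.CU.bcb_alt ω halt) hl1 hinv hpr
      ⟨hE, hsum⟩ (fun i => ?_) htwists φ hφ
  rcases hfrob i with h | ⟨F, ⟨b, hb⟩, a, c, hc, h⟩
  · exact Or.inl h
  · choose z hz using hb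
    have hz0 : ∀ k, z k ≠ 0 := by
      intro k h0
      have h1 := hz k
      rw [h0, zero_smul] at h1
      exact Rne (R := extend (AlgebraicClosure ℚ_[ℓ]) ρ) F (b.ne_zero k) h1
    exact Or.inr ⟨F, b, fun k => Units.mk0 (z k) (hz0 k), hz, a, c, hc, h⟩

end Pool.Agent.Results.MP_7b53ad_ag.IsolatedSlopes
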