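import Mathlib
import Pool.Agent.Y126.Glue

/-!
# Tate classes on all powers of abelian varieties with two ordinary Frobenius elements in general
position

Let `A` be an abelian variety over a finitely generated field of characteristic zero, `V = V_ℓ(A)`
its rational Tate module with the action `ρ` of the Galois group `Γ`, `χ` the cyclotomic character
and `ω` the Weil pairing of a polarization; `K` is the algebraic closure of `ℚ_ℓ` and `X = K ⊗ V`.

Let `F` be a Frobenius element at a place of good ordinary reduction, over the finite field with `q`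
elements, and `w` an extension of the `p`-adic valuation, normalised by `w(q) = 1`.  The eigenvalues
of `F` have slopes `w(a)` equal to `0` or `1`, and the *slope operator* `x` is the operator which is
multiplication by `w(a) - 1 / 2` on the eigenspace of `a`; so `x ^ 2 = 1 / 4`.  Let `y` be the slope
operator for a second place of ordinary reduction, or for the conjugate `g F g⁻¹` of `F` by an element
`g` of `Γ`.  The operator `x y + y x` commutes with `x` and `y`; it measures the relative position of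
the two slope decompositions.  Its eigenvalues different from `1 / 2` and `- 1 / 2` have even
multiplicities `2 d` (also on every strongly irreducible subspace).

For `End(A) = ℤ` there is only one strongly irreducible subspace, `U = X`, and the hypothesis says:
for two such operators there is an eigenvalue of `x y + y x` different from `1 / 2` and `- 1 / 2`
whose multiplicity is `2 d` where `d` is prime to `2 dim A`, or odd, or two; or these numbers `d` have
no common factor.  If the image of Galois is open in the group of symplectic similitudes, and there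
is a place of ordinary reduction, there is such a `g` (all `d` are one for most of them).
There is no condition on bad reduction.
-/

namespace Pool.Agent.Results.MP_7b53ad_ag.OrdinaryFrobeniusPairs

open Module TensorProduct Pool.Agent.Y126.Notions

noncomputable section

variable {K X Γ : Type} [Field K] [AddCommGroup X] [Module K X] [Group Γ]

/-- The slope operator of a diagonalizable element `F` of the group with eigenvalues of slope
`0` and `1`: `w` is a homomorphism from the multiplicative group of `K` to the rational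
numbers with `w (χ F) = 1`, and `x` is multiplication by `w a - 1 / 2` on the eigenspace of the
eigenvalue `a`, where `w a` is `0` or `1`. -/
def IsOrdinarySlopeOperator (R : Representation K Γ X) (χ : Γ →* K) (x : Module.End K X) : Prop :=
  ∃ (F : Γ) (n : ℕ) (b : Basis (Fin n) K X) (a : Fin n → Kˣ) (c : Kˣ) (w : Additive Kˣ →+ ℚ),
    (∀ i, R F (b i) = (a i : K) • b i) ∧ (c : K) = χ F ∧ w (Additive.ofMul c) = 1 ∧
    ∀ i, (w (Additive.ofMul (a i)) = 1 ∧ x (b i) = (1 / 2 : K) • b i) ∨
      (w (Additive.ofMul (a i)) = 0 ∧ x (b i) = -(1 / 2 : K) • b i)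

/-- The operator `x y + y x` has on `U` an eigenvalue different from `1 / 2` and `- 1 / 2` of
algebraic multiplicity `2 d`. -/
def HasHalfMultiplicity (x y : Module.End K X) (U : Submodule K X) (d : ℕ) : Prop :=
  ∃ c : K, c ≠ 1 / 2 ∧ c ≠ -(1 / 2) ∧
    2 * d = finrank K (Module.End.maxGenEigenspace (x * y + y * x) c ⊓ U : Submodule K X)

/-- For every strongly irreducible subspace `U` of dimension at least two there are two slope
operators `x` and `y` such that the halves of the multiplicities on `U` of the eigenvalues of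
`x y + y x` different from `1 / 2` and `- 1 / 2` have no common prime factor, or `U` is symplectic and
one of them is two, or prime to the dimension of `U`, or odd and the weak Hodge elements generate. -/
def HasOrdinaryPairs (R : Representation K Γ X) (χ : Γ →* K) : Prop :=
  ∀ U, StronglyIrreducible R U → 2 ≤ finrank K U → ∃ x y : Module.End K X,
    IsOrdinarySlopeOperator R χ x ∧ IsOrdinarySlopeOperator R χ y ∧
    ((∀ p : ℕ, p.Prime → ∃ d, HasHalfMultiplicity x y U d ∧ ¬ p ∣ d) ∨
      (IsSymplectic R χ U ∧ ∃ d, HasHalfMultiplicity x y U d ∧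
        (d = 2 ∨ Nat.Coprime d (finrank K U) ∨ (Odd d ∧ WeakHodgeGenerate R χ))))

open Pool.Agent.H204R3.SP Pool.Agent.H204R3.GP Pool.Agent.W522.U

theorem slope_spec [CharZero K] [FiniteDimensional K X] {R : Representation K Γ X} {χ : Γ →* K}
    {x : Module.End K X} (hx : IsOrdinarySlopeOperator R χ x) :
    x ∈ lieT R χ ∧ x * x = (1 / 4 : K) • 1 := by
  obtain ⟨F, n, b, a, c, w, hF, hc, hw, h⟩ := hx
  refine ⟨Pool.Agent.Y126.Glue.slope_mem F b a c w hF hc hw fun i => ?_, ?_⟩
  · rcases h i with ⟨h1, h2⟩ | ⟨h1, h2⟩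
    · rw [h1, h2]
      congr 1
      push_cast
      norm_num
    · rw [h1, h2]
      congr 1
      push_cast
      norm_num
  · refine b.ext fun i => ?_
    rw [Module.End.mul_apply, LinearMap.smul_apply, Module.End.one_apply]
    rcases h i with ⟨-, h2⟩ | ⟨-, h2⟩
    · rw [h2, map_smul, h2, smul_smul]
      norm_num
    · rw [h2, map_smul, h2, smul_smul]
      norm_num

theorem result (ℓ : ℕ) [Fact ℓ.Prime] {V Γ : Type} [AddCommGroup V] [Module ℚ_[ℓ] V]
    [FiniteDimensional ℚ_[ℓ] V] [Group Γ] (ρ : Representation ℚ_[ℓ] Γ V) (χ : Γ →* ℚ_[ℓ])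
    (ω : V →ₗ[ℚ_[ℓ]] V →ₗ[ℚ_[ℓ]] ℚ_[ℓ]) (halt : ∀ v, ω v v = 0)
    (hnondeg : ∀ u, (∀ v, ω v u = 0) → u = 0)
    (hω : ∀ s u v, ω (ρ s u) (ρ s v) = χ s * ω u v)
    (hsemisimple : PotentiallySemisimple ρ)
    (hpairs : HasOrdinaryPairs (extend (AlgebraicClosure ℚ_[ℓ]) ρ)
      ((algebraMap ℚ_[ℓ] (AlgebraicClosure ℚ_[ℓ]) : ℚ_[ℓ] →* _).comp χ))
    (hlines : NoSelfDualLines (extend (AlgebraicClosure ℚ_[ℓ]) ρ)
      ((algebraMap ℚ_[ℓ] (AlgebraicClosure ℚ_[ℓ]) : ℚ_[ℓ] →* _).comp χ))
    (htwists : NoProperTwists (extend (AlgebraicClosure ℚ_[ℓ]) ρ)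
      ((algebraMap ℚ_[ℓ] (AlgebraicClosure ℚ_[ℓ]) : ℚ_[ℓ] →* _).comp χ)) :
    GeneratedByWeilClasses (AlgebraicClosure ℚ_[ℓ]) ρ χ ω ∧
    ((∀ (Q : Type) [Fintype Q] [Nonempty Q]
      (L : Q → Submodule (AlgebraicClosure ℚ_[ℓ]) (AlgebraicClosure ℚ_[ℓ] ⊗[ℚ_[ℓ]] V)),
      ¬IsWeilFamily (extend (AlgebraicClosure ℚ_[ℓ]) ρ)
        ((algebraMap ℚ_[ℓ] (AlgebraicClosure ℚ_[ℓ]) : ℚ_[ℓ] →* _).comp χ) L) →
      GeneratedInDegreeTwo ρ χ) := by
  have hl1 : ∀ u, (∀ v, bcb (AlgebraicClosure ℚ_[ℓ]) ω u v = 0) → u = 0 := fun u hu =>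
    bcb_nondeg_left ω hnondeg (left_nondeg ω halt hnondeg) u hu
  have hinv := bcb_inv (Ω := AlgebraicClosure ℚ_[ℓ]) ρ χ ω hω
  have hpr : HasProj (bcr ρ (AlgebraicClosure ℚ_[ℓ])) := hasProj_bcr ρ _ hsemisimple
  have hsq : ∀ c : AlgebraicClosure ℚ_[ℓ], c ≠ 1 / 2 → c ≠ -(1 / 2) → c * c ≠ 1 / 4 := by
    intro c h1 h2 h3
    have h4 : (c - 1 / 2) * (c + 1 / 2) = 0 := by linear_combination h3
    rcases mul_eq_zero.1 h4 with h5 | h5
    · exact h1 (sub_eq_zero.1 h5)
    · exact h2 (eq_neg_of_add_eq_zero_left h5)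
  refine Pool.Agent.Y126.Glue.conclusion ℓ ρ χ ω halt hnondeg hω hsemisimple ?_ hlines htwists
  intro U hU h2
  obtain ⟨x, y, hx, hy, h | ⟨hs, d, ⟨c, hc1, hc2, hd⟩, h⟩⟩ := hpairs U hU h2
  · obtain ⟨hx1, hx2⟩ := slope_spec hx
    obtain ⟨hy1, hy2⟩ := slope_spec hy
    refine Pool.Agent.Y126.Toric.one_of_pair_gcd (bcb _ ω) hl1 hinv hpr hU hx1 hy1 hx2 hy2 ?_
    intro p hp
    obtain ⟨d, ⟨c, hc1, hc2, hd⟩, hpd⟩ := h p hp
    exact ⟨c, d, hsq c hc1 hc2, hd, hpd⟩
  · obtain ⟨hx1, hx2⟩ := slope_spec hx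
    obtain ⟨hy1, hy2⟩ := slope_spec hy
    refine Pool.Agent.Y126.Toric.one_of_pair_alt (bcb _ ω) hl1 hinv hpr hU hx1 hy1 hx2 hy2 hs
      (hsq c hc1 hc2) hd ?_ ?_
    · rintro rfl
      rcases h with h | h | ⟨h, -⟩
      · omega
      · rw [Nat.coprime_zero_left] at h
        omega
      · exact absurd h (by decide)
    · rcases h with h | h | ⟨h, hP⟩
      · exact Or.inl h
      · exact Or.inr (Or.inr h)
      · exact Or.inr (Or.inl ⟨h, fun P hP' => hP P fun x hx => hP' x hx.2 hx.1⟩)

end

end Pool.Agent.Results.MP_7b53ad_ag.OrdinaryFrobeniusPairs
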