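import Mathlib
import Pool.Agent.TH118.CU.Final

/-!
# Tate classes on all powers of abelian varieties with places of small toric rank, over finitely
generated fields of any characteristic

Let `A` be an abelian variety over a finitely generated field `k` of any characteristic and `ℓ` a
prime number different from the characteristic; `V = V_ℓ(A)` is the rational Tate module with the
action `ρ` of the Galois group `Γ`, `χ` the cyclotomic character and `ω` the Weil pairing of a
polarization; `K` is the algebraic closure of `ℚ_ℓ` and `X = K ⊗ V`.  The representation is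
semisimple (Tate, Zarhin, Mori, Faltings).

A subspace of `X` is *strongly irreducible* if it is minimal among the nonzero subspaces that are
stable under a subgroup of finite index.  If `A` is simple over the algebraic closure, `E` is the
centre of its endomorphism algebra and `d ^ 2` the dimension of the endomorphism algebra over `E`,
then `X` is the sum of the isotypic subspaces `X_σ`, for `σ : E → K`, and `X_σ` is the sum of `d`
isomorphic strongly irreducible subspaces `U_σ`, which are pairwise not isomorphic; they are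
symplectic for the types I and II of Albert, and not self-dual for type IV.

Hypothesis: every strongly irreducible `U` which is not a line has rank one, or rank two if it is
symplectic, for an element `γ` of the group with `(γ - 1) ^ 2 = 0`: a generator of the pro-`ℓ`
part of the inertia group of a discrete valuation of (a finite extension of) `k` at which `A` has
semistable reduction.  For a simple `A` this says that the toric rank at this place is `[E : ℚ]`
(types I and IV, commutative endomorphism algebra), or `2 [E : ℚ]` (type I), or `4 [E : ℚ]` (type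
II).  For `End(A) = ℤ` it says that the toric rank is one (Hall) or two.
-/

namespace Pool.Agent.Results.MP_7b53ad_ag.SmallToricRank

open Module TensorProduct

noncomputable section

section notions

variable {K X Γ : Type} [Field K] [AddCommGroup X] [Module K X] [Group Γ]

/-- The subspace is stable under a subgroup of finite index. -/
def PotentiallyStable (R : Representation K Γ X) (U : Submodule K X) : Prop :=
  ∃ Δ : Subgroup Γ, Δ.FiniteIndex ∧ ∀ g ∈ Δ, ∀ u ∈ U, R g u ∈ U

/-- The strongly irreducible subspaces: the minimal nonzero potentially stable subspaces. -/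
def StronglyIrreducible (R : Representation K Γ X) (U : Submodule K X) : Prop :=
  U ≠ ⊥ ∧ PotentiallyStable R U ∧ ∀ W ≤ U, PotentiallyStable R W → W = ⊥ ∨ W = U

/-- There is a nonzero pairing of `U` and `U'` on which a subgroup of finite index acts by `χ`. -/
def AreDual (R : Representation K Γ X) (χ : Γ →* K) (U U' : Submodule K X) : Prop :=
  ∃ Δ : Subgroup Γ, Δ.FiniteIndex ∧ ∃ B : X →ₗ[K] X →ₗ[K] K, (∃ u ∈ U, ∃ v ∈ U', B u v ≠ 0) ∧
    ∀ g ∈ Δ, ∀ u ∈ U, ∀ v ∈ U', B (R g u) (R g v) = χ g * B u v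

/-- There is a nonzero alternating pairing on `U` on which a subgroup of finite index acts by `χ`. -/
def IsSymplectic (R : Representation K Γ X) (χ : Γ →* K) (U : Submodule K X) : Prop :=
  ∃ Δ : Subgroup Γ, Δ.FiniteIndex ∧ ∃ B : X →ₗ[K] X →ₗ[K] K, (∃ u ∈ U, ∃ v ∈ U, B u v ≠ 0) ∧
    (∀ u ∈ U, B u u = 0) ∧ ∀ g ∈ Δ, ∀ u ∈ U, ∀ v ∈ U, B (R g u) (R g v) = χ g * B u v

/-- There is a nonzero map from `U` to `U'` which is, over a subgroup of finite index, equivariant up
to the function `ψ`. -/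
def HasTwistedMap (R : Representation K Γ X) (ψ : Γ → K) (U U' : Submodule K X) : Prop :=
  ∃ Δ : Subgroup Γ, Δ.FiniteIndex ∧ ∃ T : X →ₗ[K] X, (∀ u ∈ U, T u ∈ U') ∧ (∃ u ∈ U, T u ≠ 0) ∧
    ∀ g ∈ Δ, ∀ u ∈ U, T (R g u) = ψ g • R g (T u)

/-- The representation is semisimple as a representation of every subgroup of finite index. -/
def PotentiallySemisimple (R : Representation K Γ X) : Prop :=
  ∀ Δ : Subgroup Γ, Δ.FiniteIndex → ∀ U : Submodule K X, (∀ s ∈ Δ, ∀ u ∈ U, R s u ∈ U) →
    ∃ U' : Submodule K X, (∀ s ∈ Δ, ∀ u ∈ U', R s u ∈ U') ∧ IsCompl U U'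

/-- For every strongly irreducible subspace `U` of dimension at least two there is an element `γ`
with `(γ - 1) ^ 2 = 0` such that `γ - 1` has rank one on `U`, or rank two, and then `U` is
symplectic. -/
def HasSmallToricPlaces (R : Representation K Γ X) (χ : Γ →* K) : Prop :=
  ∀ U, StronglyIrreducible R U → 2 ≤ finrank K U → ∃ γ : Γ, (R γ - 1) * (R γ - 1) = 0 ∧
    (finrank K (U.map (R γ - 1)) = 1 ∨
      (finrank K (U.map (R γ - 1)) = 2 ∧ IsSymplectic R χ U))

/-- Strongly irreducible lines are not self-dual. -/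
def NoSelfDualLines (R : Representation K Γ X) (χ : Γ →* K) : Prop :=
  ∀ U, StronglyIrreducible R U → finrank K U = 1 → ¬AreDual R χ U U

/-- A twist of a strongly irreducible subspace of dimension at least two, which is not
self-dual, that occurs as a subspace is isomorphic to it. -/
def NoProperTwists (R : Representation K Γ X) (χ : Γ →* K) : Prop :=
  ∀ U U', StronglyIrreducible R U → StronglyIrreducible R U' → 2 ≤ finrank K U →
    ¬AreDual R χ U U → ∀ ψ : Γ → K, HasTwistedMap R ψ U U' → HasTwistedMap R (fun _ => 1) U U'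

/-- The diagonal action on `X ^ n`. -/
def diagonal (R : Representation K Γ X) (n : ℕ) : Representation K Γ (Fin n → X) where
  toFun g := LinearMap.pi fun i => (R g).comp (LinearMap.proj i)
  map_one' := by
    ext y i
    simp
  map_mul' g h := by
    ext y i
    simp

/-- The sum of the forms `ω` on `X ^ n`. -/
def sumForm (ω : X →ₗ[K] X →ₗ[K] K) (n : ℕ) : (Fin n → X) →ₗ[K] (Fin n → X) →ₗ[K] K :=
  ∑ i, ω.compl₁₂ (LinearMap.proj i) (LinearMap.proj i)

/-- A Tate form of degree two: an alternating bilinear form on which a subgroup of finite index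
acts by `χ`. -/
def IsTateForm (R : Representation K Γ X) (χ : Γ →* K) (B : X →ₗ[K] X →ₗ[K] K) : Prop :=
  (∃ Δ : Subgroup Γ, Δ.FiniteIndex ∧ ∀ s ∈ Δ, ∀ u v, B (R s u) (R s v) = χ s * B u v) ∧
    ∀ u, B u u = 0

/-- A family of strongly irreducible subspaces, never dual to each other, such that a subgroup of
finite index acts on the tensor product of their determinants through the power of `χ` whose
exponent is half of the sum of the dimensions. -/
def IsWeilFamily (R : Representation K Γ X) (χ : Γ →* K) {Q : Type} [Fintype Q]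
    (L : Q → Submodule K X) : Prop :=
  (∀ q, StronglyIrreducible R (L q)) ∧ (∀ q q', ¬AreDual R χ (L q) (L q')) ∧
    ∃ (c : ℕ) (Δ : Subgroup Γ) (h : ∀ q, ∀ g ∈ Δ, ∀ u ∈ L q, R g u ∈ L q), Δ.FiniteIndex ∧
      2 * c = ∑ q, finrank K (L q) ∧
      ∀ (g : Γ) (hg : g ∈ Δ), ∏ q, LinearMap.det ((R g).restrict (h q g hg)) = χ g ^ c

/-- The exterior product of the bilinear forms `B p` and of the linear forms `a s`. -/
def wedge {P S N : Type} [Fintype P] [Fintype S] [Fintype N] [DecidableEq N]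
    (e : (P × Fin 2) ⊕ S ≃ N) (B : P → X →ₗ[K] X →ₗ[K] K) (a : S → X →ₗ[K] K) : (N → X) → K :=
  fun v => ∑ σ : Equiv.Perm N, ((Equiv.Perm.sign σ : ℤ) : K) *
    ((∏ p, B p (v (σ (e (Sum.inl (p, 0))))) (v (σ (e (Sum.inl (p, 1)))))) *
      ∏ s, a s (v (σ (e (Sum.inr s)))))

/-- The exterior products, on `X ^ n`, of Tate forms `B p` of degree two and of the Weil classes of a
Weil family `L` in `X ^ n`: of the lines `Λ ^ max (L q)`, where `b q` is a basis of `L q` and a vector is
considered as a linear form by means of `sumForm ω n`. -/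
def weilProducts (R : Representation K Γ X) (χ : Γ →* K) (ω : X →ₗ[K] X →ₗ[K] K) (n m : ℕ) :
    Set ((Fin m × Fin 2 → Fin n → X) → K) :=
  {g | ∃ (P Q : Type) (_ : Fintype P) (_ : Fintype Q) (d : Q → ℕ)
    (L : Q → Submodule K (Fin n → X)) (b : ∀ q, Basis (Fin (d q)) K (L q))
    (e : (P × Fin 2) ⊕ (Σ q, Fin (d q)) ≃ Fin m × Fin 2)
    (B : P → (Fin n → X) →ₗ[K] (Fin n → X) →ₗ[K] K),
    (∀ p, IsTateForm (diagonal R n) χ (B p)) ∧ IsWeilFamily (diagonal R n) χ L ∧
    g = wedge e B (fun s => sumForm ω n (b s.1 s.2 : Fin n → X))}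

end notions

section classes

variable {k V Γ : Type} [Field k] [AddCommGroup V] [Module k V] [Group Γ]

/-- The representation with coefficients extended to `K`. -/
def extend (K : Type) [Field K] [Algebra k K] (ρ : Representation k Γ V) :
    Representation K Γ (K ⊗[k] V) where
  toFun s := (ρ s).baseChange K
  map_one' := by
    rw [map_one]
    exact LinearMap.baseChange_id
  map_mul' s t := by
    rw [map_mul]
    exact LinearMap.baseChange_comp _ _

/-- A class in `H^{2m}(A^n)(m)`, that is an alternating form `f` in `2 m` variables on `V ^ n`, is a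
Tate class if a subgroup of finite index fixes it. -/
def IsTateClass (ρ : Representation k Γ V) (χ : Γ →* k) {n m : ℕ}
    (f : (Fin n → V) [⋀^Fin m × Fin 2]→ₗ[k] k) : Prop :=
  ∃ Δ : Subgroup Γ, Δ.FiniteIndex ∧ ∀ s ∈ Δ, ∀ v : Fin m × Fin 2 → Fin n → V,
    f (fun l i => ρ s (v l i)) = χ s ^ m * f v

/-- A class in `H^2(A^n)(1)` which is fixed by a subgroup of finite index. -/
def IsTateClassTwo (ρ : Representation k Γ V) (χ : Γ →* k) {n : ℕ}
    (f : (Fin n → V) [⋀^Fin 2]→ₗ[k] k) : Prop :=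
  ∃ Δ : Subgroup Γ, Δ.FiniteIndex ∧ ∀ s ∈ Δ, ∀ v : Fin 2 → Fin n → V,
    f (fun l i => ρ s (v l i)) = χ s * f v

/-- On all powers `A ^ n` all Tate classes are linear combinations of cup products of Tate classes
of degree two. -/
def GeneratedInDegreeTwo (ρ : Representation k Γ V) (χ : Γ →* k) : Prop :=
  ∀ (n m : ℕ) (f : (Fin n → V) [⋀^Fin m × Fin 2]→ₗ[k] k), IsTateClass ρ χ f →
    f ∈ Submodule.span k {g : (Fin n → V) [⋀^Fin m × Fin 2]→ₗ[k] k |
      ∃ B : Fin m → (Fin n → V) [⋀^Fin 2]→ₗ[k] k, (∀ l, IsTateClassTwo ρ χ (B l)) ∧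
        ∀ v, g v = ∑ σ : Equiv.Perm (Fin m × Fin 2), ((Equiv.Perm.sign σ : ℤ) : k) *
          ∏ l, B l ![v (σ (l, 0)), v (σ (l, 1))]}

/-- On all powers `A ^ n` all Tate classes are, over the extension `K`, linear combinations of exterior
products of Tate classes of degree two and of Weil classes. -/
def GeneratedByWeilClasses (K : Type) [Field K] [Algebra k K] (ρ : Representation k Γ V)
    (χ : Γ →* k) (ω : V →ₗ[k] V →ₗ[k] k) : Prop :=
  ∀ (n m : ℕ) (f : (Fin n → V) [⋀^Fin m × Fin 2]→ₗ[k] k), IsTateClass ρ χ f →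
    (fun v => algebraMap k K (f v)) ∈ Submodule.span K
      ((fun (g : (Fin m × Fin 2 → Fin n → K ⊗[k] V) → K) (v : Fin m × Fin 2 → Fin n → V) =>
        g (fun l i => (1 : K) ⊗ₜ[k] v l i)) ''
          weilProducts (extend K ρ) ((algebraMap k K : k →* K).comp χ)
            (LinearMap.BilinForm.baseChange K ω) n m)

end classes

open Pool.Agent.H204R3.SP Pool.Agent.H204R3.GP Pool.Agent.W522.U Pool.Agent.TH118.WC

theorem result (ℓ : ℕ) [Fact ℓ.Prime] {V Γ : Type} [AddCommGroup V] [Module ℚ_[ℓ] V]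
    [FiniteDimensional ℚ_[ℓ] V] [Group Γ] (ρ : Representation ℚ_[ℓ] Γ V) (χ : Γ →* ℚ_[ℓ])
    (ω : V →ₗ[ℚ_[ℓ]] V →ₗ[ℚ_[ℓ]] ℚ_[ℓ]) (halt : ∀ v, ω v v = 0)
    (hnondeg : ∀ u, (∀ v, ω v u = 0) → u = 0)
    (hω : ∀ s u v, ω (ρ s u) (ρ s v) = χ s * ω u v)
    (hsemisimple : PotentiallySemisimple ρ)
    (htoric : HasSmallToricPlaces (extend (AlgebraicClosure ℚ_[ℓ]) ρ)
      ((algebraMap ℚ_[ℓ] (AlgebraicClosure ℚ_[ℓ]) : ℚ_[ℓ] →* _).comp χ))
    (hlines : NoSelfDualLines (extend (AlgebraicClosure ℚ_[ℓ]) ρ)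
      ((algebraMap ℚ_[ℓ] (AlgebraicClosure ℚ_[ℓ]) : ℚ_[ℓ] →* _).comp χ))
    (htwists : NoProperTwists (extend (AlgebraicClosure ℚ_[ℓ]) ρ)
      ((algebraMap ℚ_[ℓ] (AlgebraicClosure ℚ_[ℓ]) : ℚ_[ℓ] →* _).comp χ)) :
    GeneratedByWeilClasses (AlgebraicClosure ℚ_[ℓ]) ρ χ ω ∧
    ((∀ (Q : Type) [Fintype Q] [Nonempty Q]
      (L : Q → Submodule (AlgebraicClosure ℚ_[ℓ]) (AlgebraicClosure ℚ_[ℓ] ⊗[ℚ_[ℓ]] V)),
      ¬IsWeilFamily (extend (AlgebraicClosure ℚ_[ℓ]) ρ)
        ((algebraMap ℚ_[ℓ] (AlgebraicClosure ℚ_[ℓ]) : ℚ_[ℓ] →* _).comp χ) L) →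
      GeneratedInDegreeTwo ρ χ) := by
  have hl1 : ∀ u, (∀ v, bcb (AlgebraicClosure ℚ_[ℓ]) ω u v = 0) → u = 0 := fun u hu =>
    bcb_nondeg_left ω hnondeg (left_nondeg ω halt hnondeg) u hu
  have hinv := bcb_inv (Ω := AlgebraicClosure ℚ_[ℓ]) ρ χ ω hω
  have hpr : HasProj (bcr ρ (AlgebraicClosure ℚ_[ℓ])) := hasProj_bcr ρ _ hsemisimple
  have hcu : Pool.Agent.TH115.Toric.HasToricPlaces (bcr ρ (AlgebraicClosure ℚ_[ℓ]))
      (bcc χ (AlgebraicClosure ℚ_[ℓ])) := by
    intro U hU h2
    obtain ⟨γ, hγ, h | ⟨h, hs⟩⟩ := htoric U hU h2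
    · exact ⟨γ, hγ, Or.inl h⟩
    · exact ⟨γ, hγ, Or.inr ⟨hs, Or.inl h⟩⟩
  have core : ∀ (m : ℕ) (φ : MultilinearMap (AlgebraicClosure ℚ_[ℓ])
      (fun _ : Fin m × Fin 2 => AlgebraicClosure ℚ_[ℓ] ⊗[ℚ_[ℓ]] V) (AlgebraicClosure ℚ_[ℓ])),
      IsTate (bcr ρ (AlgebraicClosure ℚ_[ℓ])) (bcc χ (AlgebraicClosure ℚ_[ℓ])) m φ →
      φ ∈ Submodule.span _ (DetProd (bcr ρ (AlgebraicClosure ℚ_[ℓ]))
        (bcc χ (AlgebraicClosure ℚ_[ℓ])) m) := fun m φ hφ =>
    toric_det (bcb _ ω) hl1 hinv hcu hlines htwists hpr φ hφ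
  refine ⟨fun n m f hf => ?_, fun hno => ?_⟩
  · refine Submodule.span_mono (Set.image_mono ?_)
      (classes_of_tensors (AlgebraicClosure ℚ_[ℓ]) ρ χ (bcb _ ω) hl1 hinv (core m) f hf)
    rintro g ⟨P, Q, hP, hQ, d, L, b, e, B, hB, hB0, ⟨hL1, hL2, hL3⟩, rfl⟩
    exact ⟨P, Q, hP, hQ, d, L, b, e, B, fun p => ⟨hB p, hB0 p⟩, ⟨hL1, hL2, hL3⟩, rfl⟩
  · have h := generated_of_ext ρ χ (AlgebraicClosure ℚ_[ℓ]) fun m φ hφ => ?_
    · intro n m f hf
      refine Submodule.span_mono ?_ (h n m f hf)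
      rintro g ⟨B, hB, hg⟩
      refine ⟨B, fun l => ?_, hg⟩
      obtain ⟨Δ, hΔ, h1⟩ := hB l
      refine ⟨Δ, hΔ, fun s hs v => ?_⟩
      have h2 := h1 s hs v
      rwa [pow_one] at h2
    · refine Submodule.span_mono ?_ (core m φ hφ)
      rintro ψ ⟨P, Q, hP, hQ, U, f, e, B, C, hB, hC, hU, hnd, hdet, hψ⟩
      have hemp : IsEmpty Q := by
        by_contra hne
        rw [not_isEmpty_iff] at hne
        exact hno Q U ⟨hU, hnd, hdet⟩
      have hcard : Fintype.card P = m := by
        have h1 := Fintype.card_congr e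
        rw [Fintype.card_sum, Fintype.card_prod, Fintype.card_prod, Fintype.card_fin,
          Fintype.card_fin, Fintype.card_sigma, Finset.univ_eq_empty, Finset.sum_empty] at h1
        omega
      let ε : Fin m ≃ P := (Fintype.equivFinOfCardEq hcard).symm
      let σ : Equiv.Perm (Fin m × Fin 2) :=
        ((ε.prodCongr (Equiv.refl (Fin 2))).trans (Equiv.sumEmpty _ _).symm).trans e
      refine ⟨σ, fun s => B (ε s), fun s => hB _, ?_⟩
      refine MultilinearMap.ext fun v => ?_
      rw [mmG_apply, hψ, Finset.univ_eq_empty (α := Q), Finset.prod_empty, mul_one]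
      exact (Fintype.prod_equiv ε _ _ fun s => rfl).symm

end

end Pool.Agent.Results.MP_7b53ad_ag.SmallToricRank
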